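import Mathlib

set_option autoImplicit false

/-! # Zeros of integral polynomials modulo primes -/

namespace Pool.Agent.N603.TH

open MvPolynomial

theorem map_ne_zero_big {m : ℕ} (f : MvPolynomial (Fin m) ℤ) (hf : f ≠ 0) :
    ∃ p₀ : ℕ, ∀ p : ℕ, p₀ < p → MvPolynomial.map (Int.castRingHom (ZMod p)) f ≠ 0 := by
  obtain ⟨d, hd⟩ := MvPolynomial.ne_zero_iff.1 hf
  refine ⟨(f.coeff d).natAbs, fun p hlt h0 => ?_⟩
  have h1 : ((f.coeff d : ℤ) : ZMod p) = 0 := by
    have h2 := congrArg (coeff d) h0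
    rw [coeff_map, coeff_zero] at h2
    exact h2
  rw [ZMod.intCast_zmod_eq_zero_iff_dvd, Int.natCast_dvd] at h1
  have h2 := Nat.le_of_dvd (Int.natAbs_pos.2 hd) h1
  omega

theorem aeval_eq_map {m p : ℕ} (f : MvPolynomial (Fin m) ℤ) (v : Fin m → ZMod p) :
    aeval v f = eval v (MvPolynomial.map (Int.castRingHom (ZMod p)) f) := by
  rw [eval_map, aeval_def]
  rfl

/-- A nonzero polynomial has few zeros modulo a large prime. -/
theorem nonzero_count {m : ℕ} (f : MvPolynomial (Fin m) ℤ) (hf : f ≠ 0) :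
    ∃ p₀ : ℕ, ∀ p : ℕ, p.Prime → p₀ < p →
      (p : ℝ) ^ m / 2 ≤ ({v : Fin m → ZMod p | aeval v f ≠ 0}.ncard : ℝ) := by
  classical
  obtain ⟨p₀, hp₀⟩ := map_ne_zero_big f hf
  refine ⟨p₀ + 2 * f.totalDegree, fun p hp hlt => ?_⟩
  have : Fact p.Prime := ⟨hp⟩
  have hne := hp₀ p (by omega)
  have hpp : (0 : ℝ) < p := by exact_mod_cast hp.pos
  have h1 := schwartz_zippel_totalDegree hne (Finset.univ : Finset (ZMod p))
  rw [Finset.card_univ, ZMod.card, Fintype.piFinset_univ] at h1
  set Z : Finset (Fin m → ZMod p) := Finset.univ.filter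
    fun v => eval v (MvPolynomial.map (Int.castRingHom (ZMod p)) f) = 0 with hZ
  have hdeg : (MvPolynomial.map (Int.castRingHom (ZMod p)) f).totalDegree ≤ f.totalDegree := by
    exact Finset.sup_mono (support_map_subset _ _)
  have h2 : ((Z.card : ℝ)) / (p : ℝ) ^ m ≤ 1 / 2 := by
    have h3 : ((Z.card : ℝ)) / (p : ℝ) ^ m ≤
        ((MvPolynomial.map (Int.castRingHom (ZMod p)) f).totalDegree : ℝ) / p := by
      have h9 := (NNRat.cast_le (K := ℝ)).2 h1
      push_cast at h9
      exact h9
    refine h3.trans ?_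
    rw [div_le_div_iff₀ hpp (by norm_num)]
    have h4 : 2 * (MvPolynomial.map (Int.castRingHom (ZMod p)) f).totalDegree ≤ p := by omega
    have h5 : (2 : ℝ) * (MvPolynomial.map (Int.castRingHom (ZMod p)) f).totalDegree ≤ p := by
      exact_mod_cast h4
    linarith
  rw [div_le_iff₀ (by positivity)] at h2
  have h6 : {v : Fin m → ZMod p | aeval v f ≠ 0} = ↑(Finset.univ.filter
      fun v : Fin m → ZMod p => ¬ eval v (MvPolynomial.map (Int.castRingHom (ZMod p)) f) = 0) := by
    ext v
    simp [aeval_eq_map]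
  rw [h6, Set.ncard_coe_finset]
  have h7 := Finset.card_filter_add_card_filter_not (s := (Finset.univ : Finset (Fin m → ZMod p)))
    (fun v => eval v (MvPolynomial.map (Int.castRingHom (ZMod p)) f) = 0)
  rw [Finset.card_univ, Fintype.card_fun, ZMod.card, Fintype.card_fin] at h7
  have h8 : (Z.card : ℝ) + ((Finset.univ.filter
      fun v : Fin m → ZMod p => ¬ eval v (MvPolynomial.map (Int.castRingHom (ZMod p)) f) = 0).card : ℝ) =
      (p : ℝ) ^ m := by
    exact_mod_cast h7
  linarith

/-- The value does not depend on the variables which do not occur. -/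
theorem aeval_update {m p : ℕ} (f : MvPolynomial (Fin m) ℤ) (i : Fin m) (hi : i ∉ f.vars)
    (v : Fin m → ZMod p) (z : ZMod p) : aeval (Function.update v i z) f = aeval v f := by
  classical
  rw [aeval_def, aeval_def]
  refine eval₂Hom_congr' rfl (fun j hj _ => ?_) rfl
  rw [Function.update_of_ne]
  rintro rfl
  exact hi hj

/-- `h` is of degree one in the variable `i` and coprime to `g` with respect to this variable. -/
def LinearIn {m : ℕ} (i : Fin m) (h g : MvPolynomial (Fin m) ℤ) : Prop :=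
  ∃ a b u v R : MvPolynomial (Fin m) ℤ, i ∉ a.vars ∧ i ∉ b.vars ∧ i ∉ R.vars ∧ a ≠ 0 ∧ R ≠ 0 ∧
    h = a * X i + b ∧ u * h + v * g = R

/-- A polynomial which is linear in a variable has many zeros modulo large primes. -/
theorem linear_count {m : ℕ} {i : Fin m} {h g : MvPolynomial (Fin m) ℤ} (hl : LinearIn i h g) :
    ∃ p₀ : ℕ, ∀ p : ℕ, p.Prime → p₀ < p →
      (p : ℝ) ^ m / (2 * p) ≤
        ({v : Fin m → ZMod p | aeval v h = 0 ∧ aeval v g ≠ 0}.ncard : ℝ) := by
  classical
  obtain ⟨a, b, u, w, R, ha, hb, hR, ha0, hR0, hh, hc⟩ := hl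
  obtain ⟨p₀, hp₀⟩ := nonzero_count (a * R) (mul_ne_zero ha0 hR0)
  refine ⟨p₀, fun p hp hlt => ?_⟩
  have : Fact p.Prime := ⟨hp⟩
  have hpp : (0 : ℝ) < p := by exact_mod_cast hp.pos
  have h1 := hp₀ p hp hlt
  set A : Finset (Fin m → ZMod p) := Finset.univ.filter fun v => aeval v (a * R) ≠ 0 with hA
  set V : Finset (Fin m → ZMod p) := Finset.univ.filter
    fun v => aeval v h = 0 ∧ aeval v g ≠ 0 with hV
  have e1 : {v : Fin m → ZMod p | aeval v (a * R) ≠ 0} = ↑A := by
    ext v
    simp [hA]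
  have e2 : {v : Fin m → ZMod p | aeval v h = 0 ∧ aeval v g ≠ 0} = ↑V := by
    ext v
    simp [hV]
  rw [e1, Set.ncard_coe_finset] at h1
  rw [e2, Set.ncard_coe_finset]
  let φ : (Fin m → ZMod p) → (Fin m → ZMod p) := fun v =>
    Function.update v i (-(aeval v b) / (aeval v a))
  have himg : A.image φ ⊆ V := by
    intro x hx
    obtain ⟨v, hv, rfl⟩ := Finset.mem_image.1 hx
    have hv' := (Finset.mem_filter.1 hv).2
    rw [map_mul] at hv'
    have ha' : aeval v a ≠ 0 := left_ne_zero_of_mul hv'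
    have hR' : aeval v R ≠ 0 := right_ne_zero_of_mul hv'
    have hz : aeval (φ v) h = 0 := by
      rw [hh, map_add, map_mul, aeval_X, aeval_update a i ha, aeval_update b i hb]
      change aeval v a * (Function.update v i (-(aeval v b) / (aeval v a))) i + aeval v b = 0
      rw [Function.update_self, mul_div_cancel₀ _ ha', neg_add_cancel]
    refine Finset.mem_filter.2 ⟨Finset.mem_univ _, hz, fun hg => hR' ?_⟩
    rw [← aeval_update R i hR v (-(aeval v b) / (aeval v a)), ← hc, map_add, map_mul, map_mul]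
    change aeval (φ v) u * aeval (φ v) h + aeval (φ v) w * aeval (φ v) g = 0
    rw [hz, hg, mul_zero, mul_zero, add_zero]
  have hfib : ∀ x ∈ A.image φ, (A.filter fun v => φ v = x).card ≤ p := by
    intro x _
    have hsub : (A.filter fun v => φ v = x) ⊆
        (Finset.univ : Finset (ZMod p)).image fun z => Function.update x i z := by
      intro v hv
      obtain ⟨-, hv⟩ := Finset.mem_filter.1 hv
      refine Finset.mem_image.2 ⟨v i, Finset.mem_univ _, ?_⟩
      rw [← hv]
      change Function.update (Function.update v i (-(aeval v b) / (aeval v a))) i (v i) = v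
      rw [Function.update_idem, Function.update_eq_self]
    refine (Finset.card_le_card hsub).trans (Finset.card_image_le.trans ?_)
    rw [Finset.card_univ, ZMod.card]
  have h2 := Finset.card_le_mul_card_image A p hfib
  have h3 : (A.card : ℝ) ≤ p * V.card := by
    have h4 : A.card ≤ p * V.card := h2.trans (Nat.mul_le_mul_left p (Finset.card_le_card himg))
    exact_mod_cast h4
  rw [div_le_iff₀ (by positivity)]
  linarith

/-- `h = 0` has many points outside `g = 0` modulo many primes: the densities are not summable. -/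
def Divergent {m : ℕ} (h g : MvPolynomial (Fin m) ℤ) : Prop :=
  ¬ Summable fun p : ℕ => if p.Prime then
    ({v : Fin m → ZMod p | aeval v h = 0 ∧ aeval v g ≠ 0}.ncard : ℝ) / (p : ℝ) ^ m else 0

theorem not_summable_of_ge {f : ℕ → ℝ} (hf : ∀ p, 0 ≤ f p) {δ : ℝ} (hδ : 0 < δ) {p₀ : ℕ}
    (h : ∀ p : ℕ, p.Prime → p₀ < p → δ / p ≤ f p) : ¬ Summable f := by
  intro hs
  apply not_summable_one_div_on_primes
  have h1 : Summable fun p : ℕ => δ⁻¹ * f p := hs.mul_left _
  have h2 : Summable fun p : ℕ => if p₀ < p then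
      Set.indicator {p : ℕ | p.Prime} (fun n : ℕ => (1 : ℝ) / n) p else 0 := by
    refine Summable.of_nonneg_of_le (fun p => ?_) (fun p => ?_) h1
    · split_ifs
      · exact Set.indicator_nonneg (fun n _ => by positivity) p
      · exact le_rfl
    · split_ifs with hp
      · by_cases hpr : p.Prime
        · rw [Set.indicator_of_mem (show p ∈ {p : ℕ | p.Prime} from hpr)]
          have h3 := h p hpr hp
          have h4 : (1 : ℝ) / p = δ⁻¹ * (δ / p) := by
            field_simp
          rw [h4]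
          exact mul_le_mul_of_nonneg_left h3 (by positivity)
        · rw [Set.indicator_of_notMem (show p ∉ {p : ℕ | p.Prime} from hpr)]
          exact mul_nonneg (by positivity) (hf p)
      · exact mul_nonneg (by positivity) (hf p)
  refine (summable_congr_cofinite ?_).mp h2
  rw [Filter.eventuallyEq_iff_exists_mem]
  refine ⟨{p | p₀ < p}, ?_, ?_⟩
  · rw [Nat.cofinite_eq_atTop]
    exact Filter.Ioi_mem_atTop p₀
  · intro p hp
    exact if_pos hp

theorem divergent_linear {m : ℕ} {i : Fin m} {h g : MvPolynomial (Fin m) ℤ}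
    (hl : LinearIn i h g) : Divergent h g := by
  obtain ⟨p₀, hp₀⟩ := linear_count hl
  refine not_summable_of_ge (δ := 1 / 2) (p₀ := p₀) (fun p => ?_) (by norm_num) fun p hp hlt => ?_
  · split_ifs <;> positivity
  · rw [if_pos hp, le_div_iff₀ (by have := hp.pos; positivity)]
    refine le_trans (le_of_eq ?_) (hp₀ p hp hlt)
    ring

theorem linear_ne_zero {m : ℕ} {i : Fin m} {h g : MvPolynomial (Fin m) ℤ}
    (hl : LinearIn i h g) : h ≠ 0 := by
  classical
  obtain ⟨a, b, u, w, R, ha, hb, hR, ha0, hR0, hh, hc⟩ := hl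
  intro h0
  obtain ⟨p₀, hp₀⟩ := nonzero_count a ha0
  obtain ⟨p, hlt, hp⟩ := Nat.exists_infinite_primes (p₀ + 1)
  have : Fact p.Prime := ⟨hp⟩
  have h1 := hp₀ p hp (by omega)
  have hpp : (0 : ℝ) < p := by exact_mod_cast hp.pos
  have h2 : 0 < {v : Fin m → ZMod p | aeval v a ≠ 0}.ncard := by
    have h3 : (0 : ℝ) < ({v : Fin m → ZMod p | aeval v a ≠ 0}.ncard : ℝ) :=
      lt_of_lt_of_le (by positivity) h1
    exact_mod_cast h3
  obtain ⟨v, hv⟩ := Set.nonempty_of_ncard_ne_zero h2.ne'
  have hv' : aeval v a ≠ 0 := hv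
  have h4 : aeval (Function.update v i ((1 - aeval v b) / aeval v a)) h = 1 := by
    rw [hh, map_add, map_mul, aeval_X, aeval_update a i ha, aeval_update b i hb,
      Function.update_self, mul_div_cancel₀ _ hv', sub_add_cancel]
  rw [h0, map_zero] at h4
  exact zero_ne_one h4

end Pool.Agent.N603.TH
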