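import Pool.Agent.R424.TG.Hdg
import Pool.Agent.R424.MP.Main

set_option autoImplicit false

/-! # Members of families with several parameters: the local criterion -/

namespace Pool.Agent.N603.TH

open MvPolynomial Pool.Agent.R424.TG
open Pool.Agent.Y152.RP.FamM (NoAtypical)

/-- The value of a polynomial in the parameters at the integral point `t`. -/
noncomputable def at_ {s : ℕ} (t : Fin s → ℤ) : MvPolynomial (Fin s) ℤ →+* ℂ :=
  (Int.castRingHom ℂ).comp (eval t)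

theorem at_apply {s : ℕ} (t : Fin s → ℤ) (f : MvPolynomial (Fin s) ℤ) :
    at_ t f = ((eval t f : ℤ) : ℂ) := rfl

/-- The local criterion for the members of a family with several parameters. -/
theorem local_member (K : Subfield ℂ) [Countable K] {κ : Type} [Finite κ] {n k N m M s : ℕ}
    (P : κ → MvPolynomial ((Fin n ⊕ Fin k) ⊕ Fin N) (MvPolynomial (Fin s) ℤ))
    (h G : Fin M → MvPolynomial (Fin s) ℤ)
    (e : Fin M → κ → (((Fin n ⊕ Fin k) ⊕ Fin N) →₀ ℕ) → ℕ)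
    (he : ∀ l q, ∀ β ∈ (P q).support, ∃ g, (P q).coeff β = h l ^ e l q β * g ∧ g ∣ G l)
    (hgen : GenericOrders m (fun q => (P q).support) e)
    (Γ : Finset ℂ) (hΓ : ∀ γ ∈ Γ, IsAlgebraic ℚ γ) (hΓK : ∀ γ ∈ Γ, γ ∈ K) :
    ∃ D : ℕ, ∀ t : Fin s → ℤ, (∀ l, eval t (h l) ≠ 0 ∧ ∃ p : ℕ, p.Prime ∧ D < p ∧
      (p : ℤ) ∣ eval t (h l) ∧ ¬ (p : ℤ) ∣ eval t (G l)) →
      NoAtypical (algebraMap (Algebra.adjoin ℤ (Γ : Set ℂ)) ℂ) K m
        (solutions (fun q => (P q).support) (fun q β => at_ t ((P q).coeff β)) :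
          Set (Fin n ⊕ Fin k → ℂ)) := by
  classical
  obtain ⟨D₀, hD₀, halg⟩ := Pool.Agent.W466.ZP.alg_mem (fun z : Γ => (z : ℂ)) fun z => hΓ z z.2
  refine ⟨D₀, fun t hgood => ?_⟩
  have hK : ∀ a : Algebra.adjoin ℤ (Γ : Set ℂ),
      algebraMap (Algebra.adjoin ℤ (Γ : Set ℂ)) ℂ a ∈ K := by
    intro a
    have hle : Algebra.adjoin ℤ (Γ : Set ℂ) ≤ subalgebraOfSubring K.toSubring :=
      Algebra.adjoin_le fun γ hγ => hΓK γ hγ
    exact hle a.2
  refine coreB (algebraMap (Algebra.adjoin ℤ (Γ : Set ℂ)) ℂ) K hK _ _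
    fun r cls d L hd hr => ?_
  obtain ⟨l, hl⟩ := hgen r cls d L hd hr
  refine ⟨e l, hl, fun ρ x hx => ?_⟩
  obtain ⟨h0, p, hp, hpD, hph, hpG⟩ := hgood l
  have hxQ : AlgebraicIndependent ℚ x := hx.restrictScalars (algebraMap ℚ K).injective
  obtain ⟨V, hV, hVx⟩ := Pool.Agent.R424.MP.place x hxQ hp
  have hp1 : V.valuation (p : ℂ) < 1 := by rwa [ValuationSubring.mem_nonunits_iff] at hV
  have hint : ∀ w : ℤ, V.valuation (w : ℂ) ≤ 1 := fun w => by
    rw [ValuationSubring.valuation_le_one_iff]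
    exact intCast_mem V w
  refine ⟨V, V.valuation ((eval t (h l) : ℤ) : ℂ), ?_, ?_, fun q β hβ => ?_, fun a => ?_, hVx⟩
  · rw [Valuation.ne_zero_iff]
    exact_mod_cast h0
  · obtain ⟨w, hw⟩ := hph
    rw [hw]
    push_cast
    rw [map_mul]
    exact (mul_le_of_le_one_right' (hint w)).trans_lt hp1
  · obtain ⟨g, hg1, hg2⟩ := he l q β hβ
    have h2 : ¬ (p : ℤ) ∣ eval t g := fun h3 => hpG (h3.trans (map_dvd (eval t) hg2))
    have h3 : at_ t ((P q).coeff β) = ((eval t (h l) ^ e l q β * eval t g : ℤ) : ℂ) := by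
      rw [at_apply, hg1, map_mul, map_pow]
    rw [h3]
    push_cast
    rw [map_mul, map_pow, Pool.Agent.W466.ZP.int_unit V hp hV _ h2, mul_one]
  · rw [ValuationSubring.valuation_le_one_iff]
    have hpD' : ¬ p ∣ D₀ := fun h1 => by
      have := Nat.le_of_dvd hD₀ h1
      omega
    have hle : Algebra.adjoin ℤ (Γ : Set ℂ) ≤ subalgebraOfSubring V.toSubring :=
      Algebra.adjoin_le fun γ hγ => halg p hp hpD' V hV ⟨γ, hγ⟩
    exact hle a.2

/-- The image of the period map is contained in the set of solutions. -/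
theorem image_sub {κ₀ κ : Type} {n k N s : ℕ} (t : Fin s → ℤ)
    (P : κ₀ → MvPolynomial (Fin N) (MvPolynomial (Fin s) ℤ))
    (A B : Fin n → MvPolynomial (Fin N) (MvPolynomial (Fin s) ℤ))
    (U : Fin k → MvPolynomial (Fin N) (MvPolynomial (Fin s) ℤ))
    (E : κ → MvPolynomial ((Fin n ⊕ Fin k) ⊕ Fin N) (MvPolynomial (Fin s) ℤ))
    (hE : ∀ y, OnS (at_ t) P A B U y → ∀ q,
      eval₂ (at_ t) (Sum.elim (period (at_ t) A B U y) y) (E q) = 0) :
    image (at_ t) P A B U ⊆ solutions (fun q => (E q).support) (fun q β => at_ t ((E q).coeff β)) := by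
  rintro x ⟨y, hy, rfl⟩
  refine ⟨fun j => hy.2.2 j, y, fun q => ?_⟩
  have h1 := hE y hy q
  rw [eval₂_eq'] at h1
  exact h1

end Pool.Agent.N603.TH
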