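import Pool.Agent.N666.TM.Diag
import Pool.Agent.N603.TH.Pol

set_option autoImplicit false
set_option linter.unusedSectionVars false

/-! # Prime divisors of the values of polynomials at thin sequences -/

namespace Pool.Agent.N603.TH

open Finset Filter
open Pool.Agent.N666.TM
open Pool.Agent.Y722.HS
open Pool.Agent.N666.VE (primes)

section
variable {ι : Type} [Fintype ι] [DecidableEq ι]

/-- If the densities of the classes modulo the primes are not summable, then almost all members of a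
well distributed sequence are in one of the classes. -/
theorem null_of_dens {S : ℕ → Finset ℕ} {x : ℕ → ι → ℤ} {κ : ℝ} (hκ : 0 < κ)
    (hw : ∃ N₀ : ℕ, ∀ N : ℕ, N₀ ≤ N → ∀ H : ℕ, (H : ℝ) ≤ (N : ℝ) ^ κ → Well (S N) x H)
    (Ω : ∀ p : ℕ, Set (ι → ZMod p))
    (hΩ : ¬ Summable fun p : ℕ => if p.Prime then dens (Ω p) else 0) (D : ℕ) :
    NullIn S {n | ∀ p : ℕ, p.Prime → D < p → red p (x n) ∉ Ω p} := by
  classical
  intro ε hε
  obtain ⟨N₁, hN₁⟩ := hw
  set ε' : ℝ := ε / 2 with hε'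
  have hε'0 : 0 < ε' := by positivity
  obtain ⟨y, hy⟩ : ∃ y : ℕ, 2 / ε' ≤ ∑ p ∈ (Finset.range y).filter Nat.Prime,
      (if D < p then dens (Ω p) else 0) := by
    have hns : ¬ Summable
        (fun p : ℕ => if p.Prime then (if D < p then dens (Ω p) else 0) else 0) := by
      intro hsum
      apply hΩ
      refine (summable_congr_cofinite ?_).mp hsum
      rw [Filter.eventuallyEq_iff_exists_mem]
      refine ⟨{p | D < p}, ?_, ?_⟩
      · rw [Nat.cofinite_eq_atTop]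
        exact Ioi_mem_atTop D
      · intro p hp
        have hp' : D < p := hp
        by_cases h : p.Prime
        · simp [h, hp']
        · simp [h]
    have hnn : ∀ p : ℕ, 0 ≤ (if p.Prime then (if D < p then dens (Ω p) else 0) else 0) := by
      intro p
      split_ifs
      · exact dens_nonneg _
      · exact le_rfl
      · exact le_rfl
    have ht := (not_summable_iff_tendsto_nat_atTop_of_nonneg hnn).mp hns
    obtain ⟨y, hy⟩ := (ht.eventually_ge_atTop (2 / ε')).exists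
    refine ⟨y, ?_⟩
    rw [Finset.sum_filter]
    exact hy
  set P : Finset ℕ := ((Finset.range y).filter Nat.Prime).filter (fun p => D < p) with hP
  have hPsum : 2 / ε' ≤ ∑ p ∈ P, dens (Ω p) := by
    rw [hP, Finset.sum_filter]
    exact hy
  have hPm : ∀ p ∈ P, p < y ∧ p.Prime ∧ D < p := by
    intro p hp
    simp only [hP, Finset.mem_filter, Finset.mem_range] at hp
    exact ⟨hp.1.1, hp.1.2, hp.2⟩
  have hev : ∀ᶠ N : ℕ in atTop, ((y ^ 2 + ⌈4 / ε'⌉₊ : ℕ) : ℝ) ≤ (N : ℝ) ^ κ := by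
    have h1 : Tendsto (fun N : ℕ => (N : ℝ) ^ κ) atTop atTop :=
      (tendsto_rpow_atTop hκ).comp tendsto_natCast_atTop_atTop
    exact h1.eventually_ge_atTop _
  obtain ⟨N₂, hN₂⟩ := eventually_atTop.mp hev
  refine ⟨max N₁ N₂, fun N hN => ?_⟩
  set H : ℕ := y ^ 2 + ⌈4 / ε'⌉₊ with hH
  have hws := hN₁ N ((le_max_left _ _).trans hN) H (hN₂ N ((le_max_right _ _).trans hN))
  have hμ0 : 0 < ∑ p ∈ P, dens (Ω p) := lt_of_lt_of_le (by positivity) hPsum
  have h1 := turan hws P (fun p => p) (fun p hp => (hPm p hp).2.1.pos)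
    (fun p hp p' hp' hne => (Nat.coprime_primes (hPm p hp).2.1 (hPm p' hp').2.1).mpr hne)
    (fun p hp p' hp' => by
      calc p * p' ≤ y * y := Nat.mul_le_mul (hPm p hp).1.le (hPm p' hp').1.le
        _ = y ^ 2 := by ring
        _ ≤ 2 * H + 1 := by omega)
    (fun p => Ω p) _ rfl hμ0
  have h2 : 2 / (∑ p ∈ P, dens (Ω p)) ≤ ε' := by
    rw [div_le_iff₀ hμ0]
    rw [div_le_iff₀ hε'0] at hPsum
    linarith
  have h3 : (4 : ℝ) / (2 * H + 1) ≤ ε' := by
    have h4 : 4 / ε' ≤ (H : ℝ) :=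
      (Nat.le_ceil _).trans (by exact_mod_cast (by omega : ⌈4 / ε'⌉₊ ≤ H))
    rw [div_le_iff₀ hε'0] at h4
    rw [div_le_iff₀ (by positivity)]
    nlinarith
  have hsub : {t : ℕ | t ∈ S N ∧ t ∈ {n | ∀ p : ℕ, p.Prime → D < p → red p (x n) ∉ Ω p}} ⊆
      ↑((S N).filter fun n => ∀ p ∈ P, red p (x n) ∉ Ω p) := by
    rintro n ⟨hn, hn'⟩
    exact Finset.mem_coe.2 (Finset.mem_filter.2 ⟨hn, fun p hp =>
      hn' p (hPm p hp).2.1 (hPm p hp).2.2⟩)
  have h5 := Set.ncard_le_ncard hsub (Finset.finite_toSet _)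
  rw [Set.ncard_coe_finset] at h5
  calc (({t : ℕ | t ∈ S N ∧ t ∈ {n | ∀ p : ℕ, p.Prime → D < p → red p (x n) ∉ Ω p}}.ncard : ℕ) : ℝ)
      ≤ (((S N).filter fun n => ∀ p ∈ P, red p (x n) ∉ Ω p).card : ℝ) := by exact_mod_cast h5
    _ ≤ (2 / (∑ p ∈ P, dens (Ω p)) + 4 / (2 * H + 1)) * (S N).card := h1
    _ ≤ (ε' + ε') * (S N).card := by gcongr
    _ = ε * (S N).card := by rw [hε']; ring

end

theorem null_mono {S : ℕ → Finset ℕ} {E E' : Set ℕ} (h : NullIn S E) (hsub : E' ⊆ E) :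
    NullIn S E' := by
  intro ε hε
  obtain ⟨N₀, h₀⟩ := h ε hε
  refine ⟨N₀, fun N hN => le_trans ?_ (h₀ N hN)⟩
  have h1 : {t : ℕ | t ∈ S N ∧ t ∈ E'} ⊆ {t : ℕ | t ∈ S N ∧ t ∈ E} := fun t ht => ⟨ht.1, hsub ht.2⟩
  exact_mod_cast Set.ncard_le_ncard h1 ((S N).finite_toSet.subset fun t ht => ht.1)

theorem null_union {S : ℕ → Finset ℕ} {E E' : Set ℕ} (h : NullIn S E) (h' : NullIn S E') :
    NullIn S (E ∪ E') := by
  intro ε hε
  obtain ⟨N₀, h₀⟩ := h (ε / 2) (by positivity)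
  obtain ⟨N₁, h₁⟩ := h' (ε / 2) (by positivity)
  refine ⟨max N₀ N₁, fun N hN => ?_⟩
  have h2 := h₀ N ((le_max_left _ _).trans hN)
  have h3 := h₁ N ((le_max_right _ _).trans hN)
  have h4 : {t : ℕ | t ∈ S N ∧ t ∈ E ∪ E'} =
      {t : ℕ | t ∈ S N ∧ t ∈ E} ∪ {t : ℕ | t ∈ S N ∧ t ∈ E'} := by
    ext t
    simp only [Set.mem_ofPred_eq, Set.mem_union]
    tauto
  have h5 := Set.ncard_union_le {t : ℕ | t ∈ S N ∧ t ∈ E} {t : ℕ | t ∈ S N ∧ t ∈ E'}
  rw [← h4] at h5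
  have h6 : ({t : ℕ | t ∈ S N ∧ t ∈ E ∪ E'}.ncard : ℝ) ≤
      ({t : ℕ | t ∈ S N ∧ t ∈ E}.ncard : ℝ) + ({t : ℕ | t ∈ S N ∧ t ∈ E'}.ncard : ℝ) := by
    exact_mod_cast h5
  linarith

theorem null_empty {S : ℕ → Finset ℕ} : NullIn S ∅ := by
  intro ε hε
  refine ⟨0, fun N _ => ?_⟩
  have h1 : {t : ℕ | t ∈ S N ∧ t ∈ (∅ : Set ℕ)} = ∅ := by
    ext t
    simp
  rw [h1, Set.ncard_empty]
  push_cast
  positivity

/-- Countably many null sets are contained, up to finite sets, in one null set. -/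
theorem null_countable {α : Type} [Countable α] {S₁ S₂ : ℕ → Finset ℕ}
    (hS₁ : ∀ N, S₁ N ⊆ Ioc N (2 * N)) (hS₂ : ∀ N, S₂ N ⊆ Ioc N (2 * N)) (B : α → Set ℕ)
    (h₁ : ∀ x, NullIn S₁ (B x)) (h₂ : ∀ x, NullIn S₂ (B x)) :
    ∃ E : Set ℕ, NullIn S₁ E ∧ NullIn S₂ E ∧ ∀ x, (B x \ E).Finite := by
  classical
  rcases isEmpty_or_nonempty α with hα | hα
  · exact ⟨∅, null_empty, null_empty, fun x => (hα.false x).elim⟩
  obtain ⟨f, hf⟩ := exists_surjective_nat α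
  let E' : ℕ → Set ℕ := fun k => ⋃ j ∈ Finset.range (k + 1), B (f j)
  have hmono : Monotone E' := by
    intro k k' hkk
    exact Set.biUnion_subset_biUnion_left fun j hj => by
      rw [Finset.mem_coe, Finset.mem_range] at *
      omega
  have hsucc : ∀ k, E' (k + 1) = E' k ∪ B (f (k + 1)) := by
    intro k
    change (⋃ j ∈ Finset.range (k + 1 + 1), B (f j)) = _
    rw [Finset.range_add_one, Finset.set_biUnion_insert, Set.union_comm]
  have hzero : E' 0 = B (f 0) := by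
    change (⋃ j ∈ Finset.range (0 + 1), B (f j)) = _
    simp
  have hn : ∀ S : ℕ → Finset ℕ, (∀ x, NullIn S (B x)) → ∀ k, NullIn S (E' k) := by
    intro S hS k
    induction k with
    | zero => rw [hzero]; exact hS _
    | succ k ih => rw [hsucc]; exact null_union ih (hS _)
  obtain ⟨E, e1, e2, e3⟩ := diag hmono hS₁ hS₂ (hn S₁ h₁) (hn S₂ h₂)
  refine ⟨E, e1, e2, fun x => ?_⟩
  obtain ⟨k, rfl⟩ := hf x
  refine (e3 k).subset (Set.sdiff_subset_sdiff_left ?_)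
  exact Set.subset_biUnion_of_mem (u := fun j => B (f j)) (Finset.mem_coe.2 (Finset.mem_range.2 (by omega)))

/-- The values of the parameters. -/
noncomputable def par (F : ℕ → Finset ℝ) (a : ℕ → ℝ → ℝ) {s : ℕ} (t : ℕ) : Fin s → ℤ :=
  fun i => flo F a i t

/-- The integers `t` such that `h(t) ≠ 0` has a prime divisor above `D` which does not divide
`G(t)`. -/
def GoodPol (F : ℕ → Finset ℝ) (a : ℕ → ℝ → ℝ) {s : ℕ} (h G : MvPolynomial (Fin s) ℤ) (D t : ℕ) :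
    Prop :=
  MvPolynomial.eval (par F a t) h ≠ 0 ∧ ∃ p : ℕ, p.Prime ∧ D < p ∧
    (p : ℤ) ∣ MvPolynomial.eval (par F a t) h ∧ ¬ (p : ℤ) ∣ MvPolynomial.eval (par F a t) G

theorem aeval_red {s p : ℕ} (f : MvPolynomial (Fin s) ℤ) (v : Fin s → ℤ) :
    MvPolynomial.aeval (red p v) f = ((MvPolynomial.eval v f : ℤ) : ZMod p) := by
  rw [aeval_eq_map, MvPolynomial.eval_map]
  have h1 := MvPolynomial.eval₂_comp_left (Int.castRingHom (ZMod p)) (RingHom.id ℤ) v f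
  rw [RingHom.comp_id] at h1
  exact h1.symm

instance countable_pol (s : ℕ) : Countable (MvPolynomial (Fin s) ℤ) := by
  have h := MvPolynomial.cardinalMk_le_max (σ := Fin s) (R := ℤ)
  rw [← Cardinal.mk_le_aleph0_iff]
  refine h.trans ?_
  simp

theorem dens_fin {s p : ℕ} (Ω : Set (Fin s → ZMod p)) :
    Pool.Agent.N666.TM.dens Ω = (Ω.ncard : ℝ) / (p : ℝ) ^ s := by
  unfold Pool.Agent.N666.TM.dens
  rw [Fintype.card_fin]

/-- One null set for all polynomials. -/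
theorem one_null_pol {F : ℕ → Finset ℝ} {a : ℕ → ℝ → ℝ} {c : ℕ → ℝ}
    (h : ∀ i, c i ∈ F i ∧ (∀ t ∈ F i, t ≤ c i) ∧ 0 < c i ∧ (∀ m : ℕ, c i ≠ m) ∧ 0 < a i (c i))
    (hc : Function.Injective c) :
    ∃ E : Set ℕ, NullIn (fun N => Ioc N (2 * N)) E ∧ NullIn primes E ∧
      ∀ (s : ℕ) (f G : MvPolynomial (Fin (s + 1)) ℤ) (D : ℕ), f ≠ 0 → Divergent f G →
        {t : ℕ | t ∉ E ∧ ¬ GoodPol F a f G D t}.Finite := by
  classical
  let α := Σ s : ℕ, {x : MvPolynomial (Fin (s + 1)) ℤ × MvPolynomial (Fin (s + 1)) ℤ × ℕ //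
    x.1 ≠ 0 ∧ Divergent x.1 x.2.1}
  let B : α → Set ℕ := fun x => {t : ℕ | ¬ GoodPol F a x.2.1.1 x.2.1.2.1 x.2.1.2.2 t}
  have hB : ∀ (S : ℕ → Finset ℕ), (∀ s : ℕ, ∃ κ : ℝ, 0 < κ ∧ ∃ N₀ : ℕ, ∀ N : ℕ, N₀ ≤ N →
      ∀ H : ℕ, (H : ℝ) ≤ (N : ℝ) ^ κ →
        Well (S N) (fl (fun i : Fin (s + 1) => F i) (fun i => a i)) H) → ∀ x, NullIn S (B x) := by
    rintro S hS ⟨s, ⟨f, G, D⟩, hf, hd⟩
    obtain ⟨κ, hκ, hw⟩ := hS s
    have h1 := null_of_dens hκ hw
      (fun p => {v : Fin (s + 1) → ZMod p | MvPolynomial.aeval v f = 0 ∧ MvPolynomial.aeval v G ≠ 0})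
      (by
        unfold Divergent at hd
        simp only [dens_fin]
        exact hd) D
    have h2 := null_of_dens hκ hw
      (fun p => {v : Fin (s + 1) → ZMod p | MvPolynomial.aeval v f ≠ 0}) (by
        obtain ⟨p₀, hp₀⟩ := nonzero_count f hf
        refine not_summable_of_ge (δ := 1 / 2) (p₀ := p₀) (fun p => ?_) (by norm_num)
          fun p hp hlt => ?_
        · split_ifs
          · exact dens_nonneg _
          · exact le_rfl
        · have hp1 : (1 : ℝ) ≤ p := by exact_mod_cast hp.one_lt.le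
          rw [if_pos hp, dens_fin, le_div_iff₀ (by positivity)]
          refine le_trans ?_ (hp₀ p hp hlt)
          have hp3 : (0 : ℝ) ≤ (p : ℝ) ^ (s + 1) := by positivity
          have hp2 : (1 : ℝ) / 2 / p ≤ 1 / 2 := div_le_self (by norm_num) hp1
          nlinarith) D
    refine null_mono (null_union h1 h2) ?_
    intro t ht
    by_contra hcon
    apply ht
    rw [Set.mem_union, not_or] at hcon
    obtain ⟨c1, c2⟩ := hcon
    simp only [Set.mem_ofPred_eq, not_forall, not_not, exists_prop] at c1 c2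
    obtain ⟨p, hp, hpD, c3, c4⟩ := c1
    obtain ⟨q, hq, hqD, c5⟩ := c2
    have hpar : fl (fun i : Fin (s + 1) => F i) (fun i => a i) t = par F a t := rfl
    rw [hpar, aeval_red] at c3 c4 c5
    refine ⟨fun h0 => c5 ?_, p, hp, hpD, ?_, ?_⟩
    · change MvPolynomial.eval (par F a t) f = 0 at h0
      rw [h0, Int.cast_zero]
    · rwa [ZMod.intCast_zmod_eq_zero_iff_dvd] at c3
    · rwa [Ne, ZMod.intCast_zmod_eq_zero_iff_dvd] at c4
  obtain ⟨E, e1, e2, e3⟩ := null_countable (α := α) (S₁ := fun N => Ioc N (2 * N)) (S₂ := primes)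
    (fun N => Finset.Subset.refl _) (fun N => Finset.filter_subset _ _) B
    (hB _ fun s => (fl_well (ι := Fin (s + 1)) (F := fun i => F i) (a := fun i => a i)
      (c := fun i => c i) (fun i => h i) (hc.comp Fin.val_injective)).1)
    (hB _ fun s => (fl_well (ι := Fin (s + 1)) (F := fun i => F i) (a := fun i => a i)
      (c := fun i => c i) (fun i => h i) (hc.comp Fin.val_injective)).2)
  refine ⟨E, e1, e2, fun s f G D hf hd => (e3 ⟨s, ⟨f, G, D⟩, hf, hd⟩).subset ?_⟩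
  rintro t ⟨ht, ht'⟩
  exact ⟨ht', ht⟩

end Pool.Agent.N603.TH
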